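import Pool.Agent.H25.HK.Targets

set_option autoImplicit false

open NumberField NumberField.InfinitePlace
open scoped nonZeroDivisors

namespace Pool.Agent.H63.HK
open Pool.Agent.H25.HK

theorem absNorm_du_one (K : Type) [Field K] [NumberField K] :
    (FractionalIdeal.absNorm (du K (1 : FI K)) : ℝ) * |(discr K : ℝ)| = 1 := by
  have h1 : ((differentIdeal ℤ (𝓞 K) : Ideal (𝓞 K)) : FI K) = (du K (1 : FI K))⁻¹ :=
    coeIdeal_differentIdeal (A := ℤ) (B := 𝓞 K) ℚ K
  have h2 : FractionalIdeal.absNorm ((differentIdeal ℤ (𝓞 K) : Ideal (𝓞 K)) : FI K) =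
      ((discr K).natAbs : ℚ) := by
    rw [FractionalIdeal.coeIdeal_absNorm, NumberField.absNorm_differentIdeal K (𝓞 K)]
  have h3 : FractionalIdeal.absNorm (du K (1 : FI K)) *
      FractionalIdeal.absNorm (du K (1 : FI K))⁻¹ = 1 := by
    rw [← map_mul, mul_inv_cancel₀, map_one]
    exact FractionalIdeal.dual_ne_zero ℤ ℚ one_ne_zero
  rw [h1] at h2
  rw [h2] at h3
  have h4 : (((FractionalIdeal.absNorm (du K (1 : FI K)) *
      ((discr K).natAbs : ℚ) : ℚ)) : ℝ) = ((1 : ℚ) : ℝ) := by rw [h3]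
  push_cast at h4
  rw [← h4]
  congr 1
  rw [Nat.cast_natAbs, Int.cast_abs]

theorem du : T_DU := by
  intro K _ _ M hM
  have hd1 : Pool.Agent.H25.HK.du K (1 : FI K) ≠ 0 :=
    FractionalIdeal.dual_ne_zero ℤ ℚ one_ne_zero
  have hN : FractionalIdeal.absNorm M ≠ 0 := by
    rw [Ne, FractionalIdeal.absNorm_eq_zero_iff]
    exact hM
  have hmul : Pool.Agent.H25.HK.du K M = Pool.Agent.H25.HK.du K 1 * M⁻¹ :=
    FractionalIdeal.dual_eq_mul_inv ℤ ℚ M
  have hpos : 0 < (FractionalIdeal.absNorm M : ℝ) := by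
    have h0 := FractionalIdeal.absNorm_nonneg M
    have : 0 < FractionalIdeal.absNorm M := lt_of_le_of_ne h0 (Ne.symm hN)
    exact_mod_cast this
  refine ⟨FractionalIdeal.dual_ne_zero ℤ ℚ hM, FractionalIdeal.dual_dual ℤ ℚ M, ?_, hpos, ?_⟩
  · rw [hmul, mul_comm]
  · have h5 : FractionalIdeal.absNorm (Pool.Agent.H25.HK.du K M) * FractionalIdeal.absNorm M =
        FractionalIdeal.absNorm (Pool.Agent.H25.HK.du K 1) := by
      rw [hmul, ← map_mul, mul_assoc, inv_mul_cancel₀ hM, mul_one]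
    have h6 : (FractionalIdeal.absNorm (Pool.Agent.H25.HK.du K M) : ℝ) *
        (FractionalIdeal.absNorm M : ℝ) =
        (FractionalIdeal.absNorm (Pool.Agent.H25.HK.du K 1) : ℝ) := by
      exact_mod_cast h5
    rw [h6]
    exact absNorm_du_one K

end Pool.Agent.H63.HK
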