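import Pool.Agent.H25.HK.Targets

set_option autoImplicit false

open NumberField NumberField.InfinitePlace Filter Ideal Asymptotics
open scoped nonZeroDivisors

namespace Pool.Agent.H63.HK
open Pool.Agent.H25.HK

section
variable (K : Type) [Field K] [NumberField K]

/-- the coefficient -/
noncomputable def cnt (n : ℕ) : ℕ := Nat.card {I : Ideal (𝓞 K) // absNorm I = n}

theorem cnt_bigO :
    (fun n : ℕ => ∑ k ∈ Finset.Icc 1 n, (cnt K k : ℝ)) =O[atTop] fun n => (n : ℝ) ^ (1 : ℝ) := by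
  have h : Tendsto (fun n : ℕ => (∑ k ∈ Finset.Icc 1 n, (cnt K k : ℝ)) / n) atTop
      (nhds (dedekindZeta_residue K)) := by
    refine ((Ideal.tendsto_norm_le_div_atTop₀ K).comp tendsto_natCast_atTop_atTop).congr fun n ↦ ?_
    simp only [Function.comp_apply, Nat.cast_le, ← Nat.cast_sum, cnt]
    congr
    rw [← add_left_inj 1, ← card_norm_le_eq_card_norm_le_add_one,
      show Finset.Icc 1 n = Finset.Ioc 0 n from Finset.Icc_succ_left_eq_Ioc _ _,
      show 1 = Nat.card {I : Ideal (𝓞 K) // absNorm I = 0} by simp [Ideal.absNorm_eq_zero_iff],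
      Finset.sum_Ioc_add_eq_sum_Icc (n.zero_le),
      ← Finset.card_preimage_eq_sum_card_image_eq (fun k _ ↦ finite_setOfPred_absNorm_eq k)]
    simp [Set.coe_eq_subtype]
  have h2 := h.isBigO_one ℝ
  have h3 : (fun n : ℕ => ∑ k ∈ Finset.Icc 1 n, (cnt K k : ℝ)) =ᶠ[atTop]
      fun n : ℕ => ((∑ k ∈ Finset.Icc 1 n, (cnt K k : ℝ)) / n) * (n : ℝ) := by
    filter_upwards [eventually_ge_atTop 1] with n hn
    have : (n : ℝ) ≠ 0 := by positivity
    field_simp
  refine h3.trans_isBigO ?_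
  simpa using h2.mul (isBigO_refl (fun n : ℕ => (n : ℝ)) atTop)

theorem cnt_summable (s : ℂ) (hs : 1 < s.re) : LSeriesSummable (fun n => (cnt K n : ℂ)) s := by
  have := LSeriesSummable_of_sum_norm_bigO_and_nonneg (f := fun n => (cnt K n : ℝ)) (cnt_bigO K)
    (fun n => Nat.cast_nonneg _) (by norm_num) hs
  simpa using this

/-- nonzero ideals -/
abbrev NZ : Type := {I : Ideal (𝓞 K) // I ≠ ⊥}

instance fib_finite (n : ℕ) : Finite {J : NZ K // absNorm J.1 = n} := by
  have h := (finite_setOfPred_absNorm_eq (S := 𝓞 K) n)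
  have : Finite {I : Ideal (𝓞 K) // absNorm I = n} := h
  exact Finite.of_injective (β := {I : Ideal (𝓞 K) // absNorm I = n})
    (fun J => ⟨J.1.1, J.2⟩) (fun a b hab => by
      apply Subtype.ext; apply Subtype.ext; simpa using hab)

theorem fib_card (n : ℕ) (hn : n ≠ 0) : Nat.card {J : NZ K // absNorm J.1 = n} = cnt K n := by
  refine Nat.card_congr ⟨fun J => ⟨J.1.1, J.2⟩, fun I => ⟨⟨I.1, ?_⟩, I.2⟩, fun _ => rfl,
    fun _ => rfl⟩
  intro h
  apply hn
  rw [← I.2, h, Ideal.absNorm_bot]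

theorem fib_zero : IsEmpty {J : NZ K // absNorm J.1 = 0} :=
  ⟨fun J => J.1.2 (Ideal.absNorm_eq_zero_iff.mp J.2)⟩

theorem fib_tsum (s : ℂ) (n : ℕ) :
    ∑' J : {J : NZ K // absNorm J.1 = n}, (absNorm J.1.1 : ℂ) ^ (-s) =
      LSeries.term (fun n => (cnt K n : ℂ)) s n := by
  have h1 : ∀ J : {J : NZ K // absNorm J.1 = n}, (absNorm J.1.1 : ℂ) ^ (-s) = (n : ℂ) ^ (-s) := by
    intro J; rw [J.2]
  simp_rw [h1]
  have := Fintype.ofFinite {J : NZ K // absNorm J.1 = n}
  rw [tsum_fintype, Finset.sum_const, Finset.card_univ, ← Nat.card_eq_fintype_card]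
  by_cases hn : n = 0
  · subst hn
    have := fib_zero K
    simp
  · rw [fib_card K n hn, LSeries.term_of_ne_zero hn, nsmul_eq_mul, Complex.cpow_neg]
    ring

theorem fib_tsum_norm (s : ℂ) (n : ℕ) :
    ∑' J : {J : NZ K // absNorm J.1 = n}, ‖(absNorm J.1.1 : ℂ) ^ (-s)‖ =
      ‖LSeries.term (fun n => (cnt K n : ℂ)) s n‖ := by
  have h1 : ∀ J : {J : NZ K // absNorm J.1 = n}, ‖(absNorm J.1.1 : ℂ) ^ (-s)‖ =
      ‖(n : ℂ) ^ (-s)‖ := by
    intro J; rw [J.2]
  simp_rw [h1]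
  have := Fintype.ofFinite {J : NZ K // absNorm J.1 = n}
  rw [tsum_fintype, Finset.sum_const, Finset.card_univ, ← Nat.card_eq_fintype_card]
  by_cases hn : n = 0
  · subst hn
    have := fib_zero K
    simp
  · rw [fib_card K n hn, LSeries.term_of_ne_zero hn, nsmul_eq_mul, Complex.cpow_neg,
      div_eq_mul_inv, norm_mul]
    simp

end

theorem ds : T_DS := by
  intro K _ _ s hs
  have hS := cnt_summable K s hs
  let e := Equiv.sigmaFiberEquiv (fun J : NZ K => absNorm J.1)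
  have h1 : Summable (fun J : NZ K => ‖(absNorm J.1 : ℂ) ^ (-s)‖) := by
    rw [← e.summable_iff]
    refine (summable_sigma_of_nonneg (f := (fun J : NZ K => ‖(absNorm J.1 : ℂ) ^ (-s)‖) ∘ e)
      (fun _ => norm_nonneg _)).mpr ⟨fun n => ?_, ?_⟩
    · have := Fintype.ofFinite {J : NZ K // absNorm J.1 = n}
      exact (hasSum_fintype _).summable
    · have h2 := hS.norm
      refine h2.congr fun n => ?_
      exact (fib_tsum_norm K s n).symm
  refine ⟨h1, ?_⟩
  have h3 : Summable (fun J : NZ K => (absNorm J.1 : ℂ) ^ (-s)) := h1.of_norm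
  rw [← e.tsum_eq]
  have h4 : Summable (fun c : Σ n : ℕ, {J : NZ K // absNorm J.1 = n} =>
      (absNorm (e c).1 : ℂ) ^ (-s)) := (e.summable_iff (f := fun J : NZ K =>
        (absNorm J.1 : ℂ) ^ (-s))).mpr h3
  rw [h4.tsum_sigma]
  unfold dedekindZeta LSeries
  refine tsum_congr fun n => ?_
  exact (fib_tsum K s n).symm

end Pool.Agent.H63.HK
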