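import Pool.Agent.H25.HK.Targets

set_option autoImplicit false

open NumberField NumberField.InfinitePlace NumberField.Units
  NumberField.Units.dirichletUnitTheorem MeasureTheory Set Filter Asymptotics
open scoped nonZeroDivisors ENNReal

namespace Pool.Agent.H63.HK
open Pool.Agent.H25.HK

open scoped Classical in
section
variable (K : Type) [Field K] [NumberField K]

theorem mem_unitLattice_exists (l : logSpace K) (hl : l ∈ unitLattice K) :
    ∃ u : (𝓞 K)ˣ, logEmbedding K (Additive.ofMul u) = l := by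
  obtain ⟨b, -, hb⟩ := hl
  exact ⟨b.toMul, hb⟩

/-- the averaged theta function in the logarithmic variable -/
noncomputable def gg (M : FI K) (τ : ℝ) : ℝ := ∫ z in Fd K, th K M (yc K τ z)

theorem ff_eq (M : FI K) (t : ℝ) : ff K M t = gg K M (Real.log t) := rfl

/-- a compact box containing the fundamental domain -/
def bx (B : ℝ) : Set (logSpace K) := Set.pi univ (fun _ => Icc (-B) B)

theorem bx_compact (B : ℝ) : IsCompact (bx K B) := isCompact_univ_pi (fun _ => isCompact_Icc)

theorem fd_sub (B : ℝ) (hB : ∀ z ∈ Fd K, ∀ w, |z w| ≤ B) : Fd K ⊆ bx K B := by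
  intro z hz w _
  exact abs_le.mp (hB z hz w)

theorem cont_th (hCT : T_CT) (hYC : T_YC) (M : FI K) (hM : M ≠ 0) :
    Continuous (fun p : ℝ × logSpace K => th K M (yc K p.1 p.2)) :=
  (hCT K M hM).comp (hYC K).2.2.2.2.1

theorem gg_cont (hCT : T_CT) (hYC : T_YC) (hFD : T_FD) (M : FI K) (hM : M ≠ 0) :
    Continuous (gg K M) := by
  obtain ⟨hmeas, ⟨B, hB⟩, -⟩ := hFD K
  have h1 := continuous_parametric_integral_of_continuous (μ := volume.restrict (Fd K))
    (f := fun (τ : ℝ) (z : logSpace K) => th K M (yc K τ z)) (s := bx K B)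
    (cont_th K hCT hYC M hM) (bx_compact K B)
  have h2 : (volume.restrict (Fd K)).restrict (bx K B) = volume.restrict (Fd K) := by
    rw [Measure.restrict_restrict (bx_compact K B).measurableSet,
      inter_eq_self_of_subset_right (fd_sub K B hB)]
  rw [h2] at h1
  exact h1

theorem th_int (hCT : T_CT) (hYC : T_YC) (hFD : T_FD) (M : FI K) (hM : M ≠ 0) (τ : ℝ) :
    IntegrableOn (fun z => th K M (yc K τ z)) (Fd K) := by
  obtain ⟨hmeas, ⟨B, hB⟩, -⟩ := hFD K
  have h1 : Continuous (fun z : logSpace K => th K M (yc K τ z)) :=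
    (cont_th K hCT hYC M hM).comp (Continuous.prodMk_right τ)
  exact (h1.continuousOn.integrableOn_compact (bx_compact K B)).mono_set (fd_sub K B hB)

theorem ff_locInt (hCT : T_CT) (hYC : T_YC) (hFD : T_FD) (M : FI K) (hM : M ≠ 0) :
    LocallyIntegrableOn (fun t => (ff K M t : ℂ)) (Ioi 0) := by
  apply ContinuousOn.locallyIntegrableOn _ measurableSet_Ioi
  refine Complex.continuous_ofReal.comp_continuousOn ?_
  refine (gg_cont K hCT hYC hFD M hM).comp_continuousOn (Real.continuousOn_log.mono ?_)
  intro x hx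
  exact ne_of_gt hx

theorem ff_feq (hTH : T_TH) (hUI : T_UI) (hYC : T_YC) (hFD : T_FD) (M : FI K) (hM : M ≠ 0)
    (x : ℝ) (hx : 0 < x) :
    ff K M (1 / x) = (cv K M)⁻¹ * x * ff K (du K M) x := by
  obtain ⟨hY1, hY2, hY3, hY4, hY5, hY6⟩ := hYC K
  set τ := Real.log x with hτ
  have h1 : ∀ z : logSpace K, th K M (yc K (Real.log (1 / x)) z) =
      ((cv K M)⁻¹ * x) * th K (du K M) (yc K τ (-z)) := by
    intro z
    rw [(hTH K M hM _).2, hY1]
    have e1 : Real.log (1 / x) = -τ := by rw [one_div, Real.log_inv]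
    rw [e1]
    have e2 : -yc K (-τ) z = yc K τ (-z) := by
      have := hY2 τ (-z)
      rw [neg_neg] at this
      rw [this, neg_neg]
    rw [e2]
    have e3 : Real.exp (-(2 * -τ) / 2) = x := by
      rw [show -(2 * -τ) / 2 = τ by ring, hτ, Real.exp_log hx]
    rw [e3]
    ring
  have h2 : ff K M (1 / x) = ∫ z in Fd K, ((cv K M)⁻¹ * x) * th K (du K M) (yc K τ (-z)) := by
    unfold ff
    exact integral_congr_ae (Eventually.of_forall h1)
  rw [h2, integral_const_mul]
  congr 1
  exact (hFD K).2.2.2.2.2.2 (fun z => th K (du K M) (yc K τ z)) (fun z l hl => by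
    obtain ⟨u, rfl⟩ := mem_unitLattice_exists K l hl
    exact (hUI K (du K M) τ z u).2)

theorem ff_top (hCT : T_CT) (hYC : T_YC) (hFD : T_FD) (hDC : T_DC) (M : FI K) (hM : M ≠ 0)
    (r : ℝ) :
    (fun t => (ff K M t : ℂ) - ((volume.real (Fd K) : ℝ) : ℂ)) =O[atTop] (fun t : ℝ => t ^ r) := by
  obtain ⟨C, c, hc, hb⟩ := hDC K M hM
  have hmeas := (hFD K).1
  have hlt := (hFD K).2.2.2.1
  set a : ℝ := (2 : ℝ) / Module.finrank ℚ K with ha
  have hapos : 0 < a := by
    have : 0 < Module.finrank ℚ K := Module.finrank_pos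
    positivity
  have h1 : ∀ t : ℝ, 1 ≤ t → |ff K M t - volume.real (Fd K)| ≤
      (volume.real (Fd K) * C) * Real.exp (-c * t ^ a) := by
    intro t ht
    have e1 : ff K M t - volume.real (Fd K) =
        ∫ z in Fd K, (th K M (yc K (Real.log t) z) - 1) := by
      rw [integral_sub (th_int K hCT hYC hFD M hM _)
        (integrableOn_const (hs := hlt.ne))]
      simp [ff]
    rw [e1]
    have e2 := norm_setIntegral_le_of_norm_le_const (μ := volume) (s := Fd K) hlt
      (C := C * Real.exp (-c * t ^ a)) (f := fun z => th K M (yc K (Real.log t) z) - 1)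
      (fun z hz => by rw [Real.norm_eq_abs]; exact hb t ht z hz)
    rw [Real.norm_eq_abs] at e2
    calc _ ≤ _ := e2
      _ = _ := by ring
  have h2 : (fun t : ℝ => Real.exp (-c * t ^ a)) =O[atTop] (fun t : ℝ => t ^ r) := by
    have h3 := (isLittleO_exp_neg_mul_rpow_atTop hc (r / a)).isBigO.comp_tendsto
      (tendsto_rpow_atTop hapos)
    refine h3.congr' (Eventually.of_forall fun t => rfl) ?_
    filter_upwards [eventually_ge_atTop 0] with t ht
    simp only [Function.comp]
    rw [← Real.rpow_mul ht, mul_div_cancel₀ _ hapos.ne']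
  refine IsBigO.trans ?_ h2
  refine IsBigO.of_bound (volume.real (Fd K) * C) ?_
  filter_upwards [eventually_ge_atTop 1] with t ht
  rw [← Complex.ofReal_sub, Complex.norm_real, Real.norm_eq_abs, Real.norm_eq_abs, Real.abs_exp]
  exact h1 t ht

end

open scoped Classical in
theorem wp (hTH : T_TH) (hUI : T_UI) (hFD : T_FD) (hCT : T_CT) (hDC : T_DC) (hDU : T_DU)
    (hYC : T_YC) : T_WP := by
  intro K _ _ M hM
  obtain ⟨hd, -, -, hN, -⟩ := hDU K M hM
  have hcv : cv K M ≠ 0 := by
    unfold cv
    refine mul_ne_zero ?_ hN.ne'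
    rw [Real.sqrt_ne_zero']
    exact abs_pos.mpr (Int.cast_ne_zero.mpr (discr_ne_zero K))
  refine ⟨{ f := fun t => (ff K M t : ℂ)
            g := fun t => (ff K (du K M) t : ℂ)
            k := 1
            ε := (((cv K M)⁻¹ : ℝ) : ℂ)
            f₀ := ((volume.real (Fd K) : ℝ) : ℂ)
            g₀ := ((volume.real (Fd K) : ℝ) : ℂ)
            hf_int := ff_locInt K hCT hYC hFD M hM
            hg_int := ff_locInt K hCT hYC hFD _ hd
            hk := one_pos
            hε := by
              rw [Ne, Complex.ofReal_eq_zero, inv_eq_zero]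
              exact hcv
            h_feq := fun x hx => by
              simp only [Real.rpow_one, smul_eq_mul]
              rw [ff_feq K hTH hUI hYC hFD M hM x hx]
              push_cast
              ring
            hf_top := fun r => ff_top K hCT hYC hFD hDC M hM r
            hg_top := fun r => ff_top K hCT hYC hFD hDC _ hd r },
    fun t => rfl, fun t => rfl, rfl, rfl, rfl, rfl⟩

end Pool.Agent.H63.HK
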