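import Pool.Agent.H25.HK.Targets

set_option autoImplicit false

open NumberField NumberField.InfinitePlace
open scoped nonZeroDivisors

namespace Pool.Agent.H63.HK
open Pool.Agent.H25.HK

section
variable (K : Type) [Field K] [NumberField K]

/-- nonzero ideals as non-zero-divisors -/
def nzI (I : Ideal (𝓞 K)) (h : I ≠ ⊥) : (Ideal (𝓞 K))⁰ :=
  ⟨I, mem_nonZeroDivisors_of_ne_zero h⟩

theorem pri_iff (u : (FI K)ˣ) (I : Ideal (𝓞 K)) (h : I ≠ ⊥) :
    Pri K (u : FI K) I ↔ ClassGroup.mk0 (nzI K I h) * ClassGroup.mk (K := K) u = 1 := by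
  have h1 : ClassGroup.mk0 (nzI K I h) = ClassGroup.mk (K := K) (FractionalIdeal.mk0 K (nzI K I h)) :=
    (ClassGroup.mk_mk0 K (nzI K I h)).symm
  rw [h1, ← map_mul, ClassGroup.mk_eq_one_iff, FractionalIdeal.isPrincipal_iff]
  constructor
  · rintro ⟨_, x, hx⟩
    exact ⟨x, by rw [← hx]; rfl⟩
  · rintro ⟨x, hx⟩
    exact ⟨h, x, by rw [← hx]; rfl⟩

end

theorem cs (h : T_DU) : T_CS := by
  intro K _ _
  choose F hF using fun c : ClassGroup (𝓞 K) => ClassGroup.mk0_surjective c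
  have hFu : ∀ c, ClassGroup.mk (K := K) (FractionalIdeal.mk0 K (F c)) = c := fun c => by
    rw [ClassGroup.mk_mk0, hF]
  obtain ⟨hd1, -, -, -, -⟩ := h K 1 one_ne_zero
  obtain ⟨D, hD⟩ : ∃ D : (FI K)ˣ, (D : FI K) = Pool.Agent.H25.HK.du K 1 :=
    ⟨Units.mk0 _ hd1, rfl⟩
  have key : ∀ c, Pool.Agent.H25.HK.du K ((FractionalIdeal.mk0 K (F c) : (FI K)ˣ) : FI K) =
      (((FractionalIdeal.mk0 K (F c))⁻¹ * D : (FI K)ˣ) : FI K) := by
    intro c
    obtain ⟨-, -, h3, -, -⟩ := h K ((FractionalIdeal.mk0 K (F c) : (FI K)ˣ) : FI K)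
      (Units.ne_zero _)
    rw [h3, Units.val_mul, hD, Units.val_inv_eq_inv_val]
  refine ⟨ClassGroup (𝓞 K), Fintype.ofFinite _,
    fun c => ((FractionalIdeal.mk0 K (F c) : (FI K)ˣ) : FI K), fun c => Units.ne_zero _, ?_, ?_⟩
  · intro I hI
    refine ⟨(ClassGroup.mk0 (nzI K I hI))⁻¹, ?_, ?_⟩
    · show Pri K _ I
      rw [pri_iff K _ I hI, hFu, mul_inv_cancel]
    · intro c hc
      have hc' : Pri K ((FractionalIdeal.mk0 K (F c) : (FI K)ˣ) : FI K) I := hc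
      rw [pri_iff K _ I hI, hFu] at hc'
      exact (inv_eq_of_mul_eq_one_right hc').symm
  · intro I hI
    refine ⟨ClassGroup.mk0 (nzI K I hI) * ClassGroup.mk (K := K) D, ?_, ?_⟩
    · show Pri K (Pool.Agent.H25.HK.du K _) I
      rw [key, pri_iff K _ I hI, map_mul, map_inv, hFu, mul_inv_rev, mul_assoc,
        mul_comm (ClassGroup.mk0 (nzI K I hI)), mul_assoc]
      simp
    · intro c hc
      have hc' : Pri K (Pool.Agent.H25.HK.du K
        ((FractionalIdeal.mk0 K (F c) : (FI K)ˣ) : FI K)) I := hc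
      rw [key, pri_iff K _ I hI, map_mul, map_inv, hFu] at hc'
      have h5 : ClassGroup.mk0 (nzI K I hI) * ClassGroup.mk (K := K) D * c⁻¹ = 1 := by
        rw [← hc', mul_assoc, mul_comm (ClassGroup.mk (K := K) D) c⁻¹]
      exact (mul_inv_eq_one.mp h5).symm

end Pool.Agent.H63.HK
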